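import Mathlib

set_option autoImplicit false

open Metric

namespace Pool.Agent.Results.MP_a6ca0f_co.OppositeFace

/-- Euclidean space `ℝ³`. -/
abbrev E3 := EuclideanSpace ℝ (Fin 3)

/-- The small radius `r = √2 - 1`. -/
noncomputable def r : ℝ := Real.sqrt 2 - 1

/-- A ball of `ℝ³`, given by its centre and its radius. -/
structure Ball where
  /-- the centre -/
  center : E3
  /-- the radius -/
  radius : ℝ

/-- The closed ball as a set of points. -/
def Ball.toSet (B : Ball) : Set E3 := closedBall B.center B.radius

/-- A packing: a collection of closed balls of radius `1` or `r` with pairwise disjoint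
interiors. -/
def IsPacking (P : Set Ball) : Prop :=
  (∀ B ∈ P, B.radius = 1 ∨ B.radius = r) ∧
    ∀ B ∈ P, ∀ C ∈ P, B ≠ C → Disjoint (interior B.toSet) (interior C.toSet)

/-- A packing is saturated if no further ball of radius `r` can be added: whatever its centre `x`,
a ball of radius `r` has an interior point in common with some ball of the packing. -/
def IsSaturated (P : Set Ball) : Prop :=
  IsPacking P ∧ ∀ x : E3, ∃ B ∈ P, ¬ Disjoint (interior (closedBall x r)) (interior B.toSet)

/-- The cell of a ball `B` of the packing `P` (additively weighted Voronoi cell): the points `x` for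
which `|x - c| - ρ` is at most the corresponding quantity of every ball of the packing. -/
def cell (P : Set Ball) (B : Ball) : Set E3 :=
  {x | ∀ C ∈ P, dist x B.center - B.radius ≤ dist x C.center - C.radius}

/-- FM-tetrahedra. The polyhedra of the FM-decomposition (additively weighted Delaunay
decomposition) of a packing `P` are dual to the vertices `v` of the cell decomposition: the
polyhedron of `v` is spanned by the centres of the balls whose cells contain `v`, and it is cut
into tetrahedra if it has more than four vertices. So the tetrahedron with vertex balls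
`T 0, T 1, T 2, T 3` is an FM-tetrahedron if its four vertices are affinely independent and there
are a saturated packing containing the four balls and a point `v` lying in their four cells. -/
def IsFMTetrahedron (T : Fin 4 → Ball) : Prop :=
  AffineIndependent ℝ (fun i => (T i).center) ∧
    ∃ P : Set Ball, IsSaturated P ∧ (∀ i, T i ∈ P) ∧ ∃ v : E3, ∀ i, v ∈ cell P (T i)

/-- The face of the tetrahedron `T` opposite to its vertex `i`. -/
def oppositeFace (T : Fin 4 → Ball) (i : Fin 4) : Set E3 :=
  convexHull ℝ ((fun j => (T j).center) '' {j | j ≠ i})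

theorem r_pos : 0 < r := by
  unfold r
  have : Real.sqrt 1 < Real.sqrt 2 := Real.sqrt_lt_sqrt (by norm_num) (by norm_num)
  rw [Real.sqrt_one] at this
  linarith

theorem r_le_one : r ≤ 1 := by
  unfold r
  have : Real.sqrt 2 ≤ 2 := by
    rw [Real.sqrt_le_left (by norm_num)]
    norm_num
  linarith

/-- In an FM-tetrahedron the (closed) ball centred at a vertex does not meet the opposite face. -/
theorem result (T : Fin 4 → Ball) (hT : IsFMTetrahedron T) (i : Fin 4) :
    Disjoint (T i).toSet (oppositeFace T i) := by
  obtain ⟨hind, P, ⟨⟨hrad, hdisj⟩, hsat⟩, hmem, v, hv⟩ := hT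
  have hr := r_pos
  have hr1 := r_le_one
  -- radii
  have hge : ∀ B ∈ P, r ≤ B.radius := by
    intro B hB
    rcases hrad B hB with h | h <;> rw [h]
    exact hr1
  have hposB : ∀ B ∈ P, 0 < B.radius := fun B hB => lt_of_lt_of_le hr (hge B hB)
  -- distances between the centres
  have hdist : ∀ B ∈ P, ∀ C ∈ P, B ≠ C → B.radius + C.radius ≤ dist B.center C.center := by
    intro B hB C hC hne
    have h := hdisj B hB C hC hne
    unfold Ball.toSet at h
    rw [interior_closedBall _ (hposB B hB).ne', interior_closedBall _ (hposB C hC).ne'] at h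
    exact (disjoint_ball_ball_iff (hposB B hB) (hposB C hC)).mp h
  -- the support sphere: centre `v`, radius `s`
  set s : ℝ := dist v (T i).center - (T i).radius with hs
  have hsj : ∀ j, dist v (T j).center = s + (T j).radius := by
    intro j
    have h1 := hv i (T j) (hmem j)
    have h2 := hv j (T i) (hmem i)
    linarith
  have hslt : s < r := by
    obtain ⟨B, hB, hnd⟩ := hsat v
    unfold Ball.toSet at hnd
    rw [interior_closedBall _ hr.ne', interior_closedBall _ (hposB B hB).ne',
      disjoint_ball_ball_iff hr (hposB B hB)] at hnd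
    have h1 := hv i B hB
    push Not at hnd
    linarith
  have hsA : s < (T i).radius := lt_of_lt_of_le hslt (hge _ (hmem i))
  set A := (T i).center with hA
  set ρ := (T i).radius with hρ
  set w := v - A with hw
  have hwn : ‖w‖ = s + ρ := by
    have := hsj i
    rw [hw, ← dist_eq_norm]
    exact this
  have hρpos : 0 < ρ := hposB _ (hmem i)
  -- every other vertex lies beyond the tangent plane
  have hbeyond : ∀ j, j ≠ i → ρ * ‖w‖ < inner ℝ w ((T j).center - A) := by
    intro j hj
    have hTne : T i ≠ T j := by
      intro hcon
      have := hind.injective.ne hj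
      exact this (by simp [hcon])
    have hd := hdist _ (hmem i) _ (hmem j) hTne
    have hX := hposB _ (hmem j)
    set X := (T j).center with hXdef
    set ρX := (T j).radius with hρX
    have hvX : ‖v - X‖ = s + ρX := by rw [← dist_eq_norm]; exact hsj j
    have hAX : ρ + ρX ≤ ‖X - A‖ := by
      rw [← dist_eq_norm, dist_comm]
      exact hd
    -- the radius of the support sphere is nonnegative
    have hs0 : 0 ≤ s := by
      have h1 : dist A X ≤ dist A v + dist v X := dist_triangle _ _ _
      have h2 : dist v A = s + ρ := hsj i
      have h3 : dist v X = s + ρX := hsj j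
      rw [dist_comm A v] at h1
      linarith
    have hid : ‖v - X‖ ^ 2 = ‖w‖ ^ 2 - 2 * inner ℝ w (X - A) + ‖X - A‖ ^ 2 := by
      have : v - X = w - (X - A) := by rw [hw]; abel
      rw [this]
      exact norm_sub_sq_real w (X - A)
    rw [hvX, hwn] at hid
    rw [hwn]
    have hAX2 : (ρ + ρX) ^ 2 ≤ ‖X - A‖ ^ 2 := by
      apply pow_le_pow_left₀ (by linarith) hAX
    nlinarith [mul_pos (sub_pos.mpr hsA) hX]
  rw [Set.disjoint_left]
  intro y hy hyface
  have hconv : Convex ℝ {y : E3 | ρ * ‖w‖ < inner ℝ w (y - A)} := by
    have : {y : E3 | ρ * ‖w‖ < inner ℝ w (y - A)} =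
        {y : E3 | ρ * ‖w‖ + inner ℝ w A < inner ℝ w y} := by
      ext y
      simp only [Set.mem_ofPred_eq, inner_sub_right]
      constructor <;> intro h <;> linarith
    rw [this]
    exact convex_halfSpace_gt (LinearMap.isLinear (innerₛₗ ℝ w)) _
  have hsub : oppositeFace T i ⊆ {y : E3 | ρ * ‖w‖ < inner ℝ w (y - A)} := by
    apply convexHull_min _ hconv
    rintro _ ⟨j, hj, rfl⟩
    exact hbeyond j hj
  have h1 : ρ * ‖w‖ < inner ℝ w (y - A) := hsub hyface
  have h2 : inner ℝ w (y - A) ≤ ‖w‖ * ‖y - A‖ := real_inner_le_norm _ _
  have h3 : ‖y - A‖ ≤ ρ := by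
    rw [← dist_eq_norm]
    exact mem_closedBall.mp hy
  have h4 : ‖w‖ * ‖y - A‖ ≤ ‖w‖ * ρ := mul_le_mul_of_nonneg_left h3 (norm_nonneg _)
  linarith

end Pool.Agent.Results.MP_a6ca0f_co.OppositeFace
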